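import Mathlib
import Pool.Agent.Q70.MM.FTMain
import Pool.Agent.Q306.TP.AngleMain

/-!
# The Mumford-Tate conjecture for abelian varieties whose reduction at one place has simple
factors of odd prime dimensions

Let `A` be an abelian variety over a number field (or a finitely generated subfield of the complex
numbers), of any dimension and with arbitrary endomorphisms, with good reduction at some place `v`,
with a residue field of `q = p ^ a` elements. Suppose that the characteristic polynomial of the
Frobenius element at `v` is the product of the minimal polynomials of Weil numbers `π i` which generate
CM fields `F i` (`HasFrobenius`), such that for each `i` (`IsSimpleWeil`)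

* `π i` is not supersingular (`IsSS`), and the functions `n` on the complex embeddings of `F i` with
  `n (conj φ) = - n φ` are an irreducible rational representation of the automorphisms of `ℂ`
  (`OddIrreducible`; for instance if `F i` is imaginary quadratic); or
* the degree of `F i` is `2 g` for an **odd prime number** `g`, all powers of `π i` generate `F i`, and
  either there is no Weil relation (`NoWeil`: no positive power of the norm of `π i` to an imaginary
  quadratic subfield of `F i` is a power of `q`; this is true if there is no such subfield), or the slopes
  are `0`, `1 / 2`, `1` and the slope `0` has odd multiplicity (`HasOddRank`). By the second part this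
  includes **all ordinary** `π i`; it includes also those of K3 type (slope `0` once).

In other words: the reduction of `A` at `v` is isogenous to a product of pairwise not isogenous,
geometrically simple abelian varieties `B_i` over the residue field, each of which has odd prime dimension
(for instance ordinary) or a CM field with irreducible odd functions. The number and the dimensions of
the `B_i` are arbitrary and nothing is supposed about the endomorphisms of `A` itself, which may be
simple. Of the fields we suppose only that **no two of the fields `F i` have the same degree and the
same normal closure, and no two of them contain the same imaginary quadratic field** (`IsDifferent`).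
The last condition is necessary if the slope functions are not balanced over that field.

**Theorem. Then for all prime numbers `ℓ` all Tate classes in the tensor powers of `H^1` (and so in
the cohomology of all powers of `A`) are linear combinations of Hodge classes**, and even of products
of Hodge classes of degree two (`MumfordTateStrong`). Together with the theorem of Deligne (Hodge
classes are Tate classes) this is the equality of the Mumford-Tate group (over `ℚ_ℓ`) and of the
connected component of the `ℓ`-adic monodromy group: both are reductive, so that they are determined by
their invariants in the spaces `(H^1)^{⊗ 2 m}(m)`. **So the Mumford-Tate conjecture holds for `A`.**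

For example let `A` be an abelian variety of dimension `g_1 + ... + g_n` for different odd prime numbers
`g_i`, and let the reduction of `A` at `v` be isogenous to the product of ordinary geometrically simple
abelian varieties of dimensions `g_1, ..., g_n`, such that no imaginary quadratic field is contained in
two of their endomorphism algebras. Then the Mumford-Tate conjecture is true for `A`, whatever the
endomorphism ring of `A` is.

In the formal statement (`IsRealization`) `W` is `H_1(A, ℚ)`, `T` the tangent space at the origin
and `per : W → T` the inclusion, `ω₀` is the form given by a polarization; `V` is the rational Tate
module with the comparison map `comp : W → V`, the action `ρ` of the Galois group and the Weil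
pairing `ω`; `χ` is the cyclotomic character. The theorems of Faltings on endomorphisms and on
semisimplicity are part of the data.

Relation to the starting files and to the results of this team. That the absence of relations
between the conjugates of the Weil numbers of one Frobenius element implies the
Mumford-Tate conjecture
was formalized in the starting files (MP_938ce2_ag OneFrobenius, MP_c1bb77_ag
OneFrobeniusTowers, AlmostAllFrobeniusTypes in this folder) and is used in the form of helper70
(`Pool.Agent.Q70.MM.FTMain`). OneFrobeniusTowers contains the case of ordinary `π i` in extensions
`F i` of prime degree of imaginary quadratic fields, if all pairs of embeddings of different fields `F i`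
are flipped by some automorphism (one is fixed and the other one conjugated). The criteria of
AlmostAllFrobeniusTypes and SeveralTypesRelatedFields (helper70) need fields with absolutely
irreducible odd functions and slope types in general position; so they do not apply to fields of
degree greater than two which contain an imaginary quadratic field, and they do not give all ordinary
Weil numbers of given fields. New here is the criterion for families of fields of degrees `2 g`, `g` an
odd prime, with and without imaginary quadratic subfields, in terms of the degrees, the normal
closures and the imaginary quadratic subfields only, for all ordinary Weil numbers and many others. The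
linear algebra of the odd functions for prime `g` (`prime_triC`) is from my theorem `PrimeDimensions`
(MP_ee618e_ag), on the Tate conjecture over finite fields. Published: for **one simple** abelian
variety of odd prime dimension over a finite field the angle rank was determined by Tankeev and
Zarhin, and the conclusion is known for abelian varieties `A` of prime dimension over number fields
(Tankeev, Ribet, Serre, Chi). Here the dimension of `A` is not prime; only its reduction at one place has
factors of prime dimensions, and `A` is not a product.

The proof. Order the fields by the degree and the degree of the normal closure. The conjugates of the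
`π k` of the fields `F k` below `F i` are unrelated to `F i`: the odd functions on the embeddings of
`F i` which are invariant under the automorphisms fixing all conjugates of `F k` form a subrepresentation
of the odd functions, and the only subrepresentations for an odd prime `g` are `0`, everything, and, if
there is an imaginary quadratic subfield, the line of its sign function and the orthogonal complement of
it. So in a relation between the conjugates the part in the highest field that occurs is itself a
relation up to a power, and it is trivial, as the relations form a subrepresentation again
(`angle_family`). For the odd rank the product of the absolute values of the conjugates over an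
imaginary quadratic field shows that there is no Weil relation.
-/

set_option autoImplicit false

namespace Pool.Agent.Results.MP_33b3f9_ag.PrimeReduction

open NumberField Module IntermediateField Pool.Agent.H204R3.GP Pool.Agent.TH170
  Pool.Agent.Y137.MV Pool.Agent.Q70.MM Pool.Agent.Q306.TP

/-- The Mumford-Tate conjecture for the abelian varieties with a Frobenius element whose
characteristic polynomial is the product of the minimal polynomials of Weil numbers `π i` for `p ^
a`, for all prime numbers `ℓ`. -/
def MumfordTateHolds (p : ℕ) [Fact p.Prime] (a : ℕ) {I : Type} [Fintype I]
    (K : I → Type) [∀ i, Field (K i)] [∀ i, NumberField (K i)] [∀ i, IsCMField (K i)]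
    (π : ∀ i, K i) : Prop :=
  ∀ (ℓ : ℕ) [Fact ℓ.Prime] (W T V Γ : Type) [AddCommGroup W] [Module ℚ W] [AddCommGroup T]
    [Module ℂ T] [AddCommGroup V] [Module ℚ_[ℓ] V] [FiniteDimensional ℚ_[ℓ] V] [Group Γ]
    (per : W →+ T) (ω₀ : W →ₗ[ℚ] W →ₗ[ℚ] ℚ) (comp : W →+ V) (ρ : Representation ℚ_[ℓ] Γ V)
    (χ : Γ →* ℚ_[ℓ]) (ω : V →ₗ[ℚ_[ℓ]] V →ₗ[ℚ_[ℓ]] ℚ_[ℓ]),
    FT.IsRealization per ω₀ comp ρ χ ω → FT.HasFrobenius ρ χ p a π →
      MumfordTateStrong per comp ρ χ

theorem of_angle {p : ℕ} [Fact p.Prime] {a : ℕ} {I : Type} [Fintype I]
    {K : I → Type} [∀ i, Field (K i)] [∀ i, NumberField (K i)] [∀ i, IsCMField (K i)]
    {π : ∀ i, K i} (ha : 0 < a) (hgen : ∀ i, ℚ⟮π i⟯ = ⊤)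
    (hw : ∀ i, π i * IsCMField.complexConj (K i) (π i) = (p : K i) ^ a)
    (hang : MaximalAngleRank (p ^ a) π) : MumfordTateHolds p a K π :=
  fun _ _ _ _ _ _ _ _ _ _ _ _ _ _ _ _ _ _ _ _ hR hF =>
    mumfordTate_of_angle ha hgen hw hang hR hF

/-- **The Mumford-Tate conjecture holds for the abelian varieties whose reduction at one place is a
product of geometrically simple, not supersingular abelian varieties of odd prime dimensions, or with
irreducible odd functions (first part), for instance of ordinary abelian varieties of odd prime
dimensions (second part), if the CM fields are different and have no common imaginary quadratic
subfields.** -/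
theorem result :
    (∀ (p : ℕ) [Fact p.Prime] (a : ℕ) (I : Type) [Fintype I] (F : I → Type)
      [∀ i, Field (F i)] [∀ i, NumberField (F i)] [∀ i, IsCMField (F i)] (π : ∀ i, F i), 0 < a →
      (∀ i, ℚ⟮π i⟯ = ⊤) → (∀ i, π i * IsCMField.complexConj (F i) (π i) = (p : F i) ^ a) →
      (∀ i, IsSimpleWeil p a (π i)) → (∀ i k, i ≠ k → IsDifferent (F i) (F k)) →
      MumfordTateHolds p a F π) ∧
    (∀ (p : ℕ) [Fact p.Prime] (a : ℕ) (K : Type) [Field K] [NumberField K] [IsCMField K] (π : K),
      0 < a → π * IsCMField.complexConj K π = (p : K) ^ a →
      (∃ g : ℕ, g.Prime ∧ g ≠ 2 ∧ finrank ℚ K = 2 * g) → (∀ s : ℕ, 0 < s → ℚ⟮π ^ s⟯ = ⊤) →
      (∀ τ : K →+* PadicAlgCl p, ‖τ π‖ = 1 ∨ ‖τ π‖ = ‖(p : PadicAlgCl p) ^ a‖) →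
      IsSimpleWeil p a π) := by
  refine ⟨?_, ?_⟩
  · intro p _ a I _ F _ _ _ π ha hg hw hs hd
    exact of_angle ha hg hw (angle_family' ha hw hs hd)
  · intro p _ a K _ _ _ π ha hw hK hgen hord
    exact simpleWeil_of_ordinary ha hw hK hgen hord

end Pool.Agent.Results.MP_33b3f9_ag.PrimeReduction
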