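import Mathlib
import Pool.Agent.Q135.Blk.Crit
import Pool.Agent.H204R3.GP.MTDefs
import Pool.Agent.H204R3.GP.MT

/-!
# The Mumford-Tate conjecture from one Frobenius element with blocks of Weil numbers separated by
# partial complex conjugations

Let `A` be an abelian variety over a finitely generated subfield of the complex numbers, of any
dimension and with arbitrary endomorphisms. Suppose that for ONE closed point of good reduction, with
residue field of `p ^ a` elements, the characteristic polynomial of the Frobenius element is the
product of the minimal polynomials of Weil numbers `π i` which generate CM fields `F i`, and that the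
indices `i` are distributed into blocks such that

* for every block some automorphism of the complex numbers conjugates the embeddings of the fields
  `F i` of the block and fixes the embeddings of all the other fields (`BlocksFlip`): the Galois
  closures of the fields of the block and of the other fields have only a totally real field in
  common;
* every block satisfies one of the conditions (`BlockCondition`):
  - it consists of one Weil number `π i` with a dominant slope (at one pair of conjugate embeddings
    into an algebraic closure of `ℚ_p` the distance of the slope from the middle slope is at least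
    the sum of the distances at all other pairs), or with at most two pairs of embeddings with a slope
    different from the middle slope, and no norm of `π i` to a CM subfield is supersingular; or
  - all families of CM subfields of the fields of the block are mild or have a good class of
    embeddings, and the norms of the `π i` to the CM subfields are separated.

Then all Tate classes in the tensor powers of `H^1` are linear combinations of Hodge classes, and
even of products of Hodge classes of degree two. Together with the theorem of Deligne (Hodge classes
are Tate classes) this is the equality of the Mumford-Tate group (over `ℚ_ℓ`) and of the connected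
component of the `ℓ`-adic monodromy group: both are reductive (Faltings), so that they are
determined by their invariants in the spaces `(H^1)^{⊗ 2 m}(m)`. It is not supposed that `A` is a
product of abelian varieties which correspond to the blocks.

In the Lean statement `W` is `H_1(A, ℚ)`, `T` the tangent space at the origin and `per : W → T` the
inclusion, `ω₀` is the form given by a polarization; `V` is the rational Tate module with the
comparison map `comp : W → V`, the action `ρ` of the Galois group and the Weil pairing `ω`; `χ` is
the cyclotomic character and `γ` the Frobenius element. The hypotheses `hss` and `hF` are the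
theorems of Faltings.

`IsHodgeBilinear`, `FaltingsEnd` and `MumfordTateStrong` are defined in
`Pool.Agent.H204R3.GP.MTDefs`; `FiniteIndexSemisimple` in `Pool.Agent.H204R3.GP.Defs`; `BlocksFlip` in
`Pool.Agent.Q135.Blk.Free`; `Dominates` and `BlockCondition` in `Pool.Agent.Q135.Blk.Crit`;
`DominantSlope` in `Pool.Agent.W527.DominantTate`; `Norm.unitNorm` and `Norm.Separated` in
`Pool.Agent.W527.NormDefs`; `MildOrGood` in `Pool.Agent.TH127.SC.Criterion`.
-/

set_option autoImplicit false

namespace Pool.Agent.Results.MP_33b3f9_ag.SeparatedBlocks

open NumberField Module Pool.Agent.H204R3.GP IntermediateField Pool.Agent.Q135.Blk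

/-- **The Mumford-Tate conjecture for abelian varieties with a Frobenius element whose Weil numbers
form blocks separated by partial complex conjugations.** -/
theorem result (ℓ p : ℕ) [Fact ℓ.Prime] [Fact p.Prime] (a : ℕ) (ha : 0 < a)
    -- the Weil numbers, in blocks
    {ι β : Type} [Fintype ι] (F : ι → Type) [∀ i, Field (F i)] [∀ i, NumberField (F i)]
    [∀ i, IsCMField (F i)] (π : ∀ i, F i) (hint : ∀ i, IsIntegral ℤ (π i))
    (hgen : ∀ i, ℚ⟮π i⟯ = ⊤)
    (hweil : ∀ i, π i * IsCMField.complexConj (F i) (π i) = (p : F i) ^ a)
    (B : ι → β) (hflip : BlocksFlip F B)
    (hcond : ∀ b, BlockCondition p a (fun i : {i // B i = b} => π i))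
    -- the complex torus `A(ℂ)` with a polarization
    {W T : Type} [AddCommGroup W] [Module ℚ W] [AddCommGroup T] [Module ℂ T] (per : W →+ T)
    (ω₀ : W →ₗ[ℚ] W →ₗ[ℚ] ℚ) (hω₀ : IsHodgeBilinear per ω₀)
    -- the Tate module
    {V : Type} [AddCommGroup V] [Module ℚ_[ℓ] V] [FiniteDimensional ℚ_[ℓ] V] (comp : W →+ V)
    {Γ : Type} [Group Γ] (ρ : Representation ℚ_[ℓ] Γ V) (χ : Γ →* ℚ_[ℓ])
    (ω : V →ₗ[ℚ_[ℓ]] V →ₗ[ℚ_[ℓ]] ℚ_[ℓ]) (halt : ∀ v, ω v v = 0)
    (hnondeg : ∀ u, (∀ v, ω v u = 0) → u = 0)
    (hω : ∀ s u v, ω (ρ s u) (ρ s v) = χ s * ω u v)
    (hωω : ∀ x y, ω (comp x) (comp y) = ((ω₀ x y : ℚ) : ℚ_[ℓ]))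
    (hss : FiniteIndexSemisimple ρ) (hF : FaltingsEnd per comp ρ)
    (γ : Γ) (hχ : χ γ = (p : ℚ_[ℓ]) ^ a)
    (hγ : (ρ γ).charpoly = ∏ i, (minpoly ℚ (π i)).map (algebraMap ℚ ℚ_[ℓ])) :
    MumfordTateStrong per comp ρ χ := by
  have hnd' : ∀ u, (∀ v, ω u v = 0) → u = 0 := by
    intro u hu
    apply hnondeg
    intro v
    have h1 := halt (u + v)
    simp only [map_add, LinearMap.add_apply, halt, hu, zero_add, add_zero] at h1
    exact h1
  exact mumfordTate_of per comp ρ χ ω hnd' hω ω₀ hω₀ hωω hF fun m φ hφ =>
    tate_of_blocks ha hint hgen hweil B hflip hcond ρ χ ω halt hnondeg hω hss γ hχ hγ φ hφ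

end Pool.Agent.Results.MP_33b3f9_ag.SeparatedBlocks
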