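import Mathlib
import Pool.Agent.Q70.MM.CluTwo
import Pool.Agent.Q70.MM.FTMain

/-!
# The Mumford-Tate conjecture for abelian varieties with a Frobenius element with several Weil
numbers in the same field or in related fields

Let `A` be an abelian variety over a number field (or a finitely generated subfield of the complex
numbers), of any dimension and with arbitrary endomorphisms, with
good reduction at some place `v`, with a residue field of `q = p ^ a` elements. Suppose that the
characteristic polynomial of the Frobenius element at `v` is the product of the minimal polynomials
of Weil numbers `π c l` which generate CM fields `K c` (`HasFrobenius`). Here `c` is in a finite set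
`C` and `l` in a finite set `J c`, so that there may be **several Weil numbers in the same field**.
Always suppose that the functions `n` on the complex embeddings of `K c` with `n (conj φ) = - n φ`
are an absolutely irreducible representation of the automorphisms of `ℂ`
(`OddAbsolutelyIrreducible`). This is the generic case; it is true for example if some automorphism
of `ℂ` exchanges one embedding of `K c` with its complex conjugate and fixes all the others.

The theorems of the starting files suppose that the fields of the Weil numbers of `A` are pairwise
independent or unrelated (there are no equivariant maps between the odd functions for `K c` and `K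
c'`). Here the indices `c` may form pairs `c`, `β c` such that **the fields `K c` and `K (β c)` are
related in any way** (isomorphic fields, or different fields with isomorphic representations). Only
the slopes have to be in general position, in the following sense. The slope function of `π c l` is
`τ ↦ log |τ (π c l)| + (log q) / 2` on the embeddings `τ` of `K c` in the algebraic closure of `ℚ_p`
(that is, the slope minus `1 / 2`, times `- log q`). Let `D c` be the quadratic form `m ↦ ∑ τ, (∑ l,
m l * slope (π c l) τ) ^ 2` in the rational variables `m l`, `l` in `J c` (`slopeForm`). We suppose

* `IndependentSlopes`: for each `c` the slope functions of the `π c l` are linearly independent over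
  `ℚ` (`D c` is anisotropic);
* `SeparatedPairs`: if `β c ≠ c` then `[K c : ℚ] ≠ [K (β c) : ℚ]`, or `[K c : ℚ] = 2 g` with odd `g`
  and the forms `D c` and `D (β c)` have **no common values** at nonzero rational vectors, or `g` is
  twice an odd number and no value of `D c` is a value of `D (β c)` times a **sum of two squares**
  (at nonzero vectors). For odd `g` this says that `D c ⊥ - D (β c)` is anisotropic over `ℚ`.

**First part. Then for all prime numbers `ℓ` all Tate classes in the tensor powers of `H^1` (and so
in the cohomology of all powers of `A`) are linear combinations of Hodge classes**, and even of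
products of Hodge classes of degree two (`MumfordTateStrong`). Together with the theorem of Deligne
(Hodge classes are Tate classes) this is the equality of the Mumford-Tate group (over `ℚ_ℓ`) and of
the connected component of the `ℓ`-adic monodromy group: both are reductive, so that they are
determined by their invariants in the spaces `(H^1)^{⊗ 2 m}(m)`. **So the Mumford-Tate conjecture
holds for `A`.**

**Second part: two fields, no condition on the fields.** There are only two fields, `F false` and
`F true`, with arbitrary relation, and any number of Weil numbers in each of them.

**Third part: three Weil numbers.** Let `x`, `y` be Weil numbers in `F false` and `z` a Weil number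
in `F true` with only the slopes `0`, `1 / 2`, `1` and with `p`-ranks `f₁`, `f₂`, `f > 0`
(`HasRank`), and let `2 k` be the number of embeddings at which `x` and `y` have the same slope
(different from `1 / 2`) minus the number of those at which they have opposite slopes (`agreement`).
*Nothing is assumed about the relation of `F false` and `F true`*, `[F false : ℚ] = 2 g` with odd
`g`. If the equation `f₁ X ^ 2 + 2 k X Y + f₂ Y ^ 2 = f Z ^ 2` has no integral solution with `(X, Y)
≠ (0, 0)`, then the conclusion holds. For example let `x`, `y` be ordinary, `g = 5`, let the slopes
of `x` and `y` be equal at four or six of the ten embeddings and let `z` have `p`-rank one; then the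
equation is `U ^ 2 + 24 Y ^ 2 = 5 Z ^ 2` with `U = 5 X + k Y`, `k = 1` or `-1`, and has no solutions
modulo powers of `3`. So this applies to abelian varieties of dimension `15` with such a Frobenius
element, `F true` being any CM field of degree `10` with absolutely irreducible odd functions.

In the formal statement (`IsRealization`) `W` is `H_1(A, ℚ)`, `T` the tangent space at the origin
and `per : W → T` the inclusion, `ω₀` is the form given by a polarization; `V` is the rational Tate
module with the comparison map `comp : W → V`, the action `ρ` of the Galois group and the Weil
pairing `ω`; `χ` is the cyclotomic character. The theorems of Faltings on endomorphisms and on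
semisimplicity are part of the data.

Relation to the starting files and to the results of this team. That the absence of relations
between the conjugates of the Weil numbers of one Frobenius element implies the Mumford-Tate
conjecture was formalized in the starting files (MP_c1bb77_ag OneFrobeniusTowers,
AlmostAllFrobeniusTypes in this folder). `ThreeTypesPerField` (MP_950c68_ag) and `TwoRelatedFields`
(MP_2a05c8_ag), both by helper70, on the Tate conjecture over finite fields and over finitely
generated fields, treat the extreme cases: several Weil numbers in the same field, the fields being
unrelated, and one Weil number for each of two related fields. The criterion here, by the quadratic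
forms of the slopes, contains both of them, and the cases of several numbers in related fields are
new; it is applied here to the Mumford-Tate conjecture.

The proof. A relation between the conjugates gives rational odd functions `n c l` on the embeddings
of `K c` with `∑ c, ∑ l, ∑ x, n c l x * u c l (σ x) = 0` for all `σ` in the Galois group, `u c l`
being the slope functions. The second moments over the Galois group and Schur's lemma separate the
pairs (`orth`). If the representations `V`, `V'` of the odd functions for `K c` and `K (β c)` are
not isomorphic then they also separate these two. If there is an isomorphism, it is given by an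
invariant rational kernel `b`, and `b` carries the relation for `K (β c)` to one for `K c`, with the
functions `∑ y, b x y * u' l y`. Second moments again show that for each embedding `x` of `K c`
there is a linear relation between the functions `u l` and `∑ y, b x y * u' l y`, with rational
coefficients (`same_core`). By Schur's lemma `b` is a similitude, so that the values of the
quadratic forms at the coefficients are equal up to the multiplier of `b`. This multiplier is a
square for odd `g` (by the determinant) and a sum of two squares if `g` is twice an odd number (by
Witt's cancellation).
-/

set_option autoImplicit false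

namespace Pool.Agent.Results.MP_33b3f9_ag.SeveralTypesRelatedFields

open NumberField Module IntermediateField Pool.Agent.H204R3.GP Pool.Agent.TH170
  Pool.Agent.Y137.MV Pool.Agent.Y137.SL Pool.Agent.Y1.CT Pool.Agent.Q70.SQ Pool.Agent.Q70.MM

/-- The Mumford-Tate conjecture for the abelian varieties with a Frobenius element whose
characteristic polynomial is the product of the minimal polynomials of Weil numbers `π i` for `p ^
a`, for all prime numbers `ℓ`. -/
def MumfordTateHolds (p : ℕ) [Fact p.Prime] (a : ℕ) {I : Type} [Fintype I]
    (K : I → Type) [∀ i, Field (K i)] [∀ i, NumberField (K i)] [∀ i, IsCMField (K i)]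
    (π : ∀ i, K i) : Prop :=
  ∀ (ℓ : ℕ) [Fact ℓ.Prime] (W T V Γ : Type) [AddCommGroup W] [Module ℚ W] [AddCommGroup T]
    [Module ℂ T] [AddCommGroup V] [Module ℚ_[ℓ] V] [FiniteDimensional ℚ_[ℓ] V] [Group Γ]
    (per : W →+ T) (ω₀ : W →ₗ[ℚ] W →ₗ[ℚ] ℚ) (comp : W →+ V) (ρ : Representation ℚ_[ℓ] Γ V)
    (χ : Γ →* ℚ_[ℓ]) (ω : V →ₗ[ℚ_[ℓ]] V →ₗ[ℚ_[ℓ]] ℚ_[ℓ]),
    FT.IsRealization per ω₀ comp ρ χ ω → FT.HasFrobenius ρ χ p a π →
      MumfordTateStrong per comp ρ χ

theorem of_angle {p : ℕ} [Fact p.Prime] {a : ℕ} {I : Type} [Fintype I]
    {K : I → Type} [∀ i, Field (K i)] [∀ i, NumberField (K i)] [∀ i, IsCMField (K i)]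
    {π : ∀ i, K i} (ha : 0 < a) (hgen : ∀ i, ℚ⟮π i⟯ = ⊤)
    (hw : ∀ i, π i * IsCMField.complexConj (K i) (π i) = (p : K i) ^ a)
    (hang : MaximalAngleRank (p ^ a) π) : MumfordTateHolds p a K π :=
  fun _ _ _ _ _ _ _ _ _ _ _ _ _ _ _ _ _ _ _ _ hR hF =>
    mumfordTate_of_angle ha hgen hw hang hR hF

/-- **The Mumford-Tate conjecture holds for the abelian varieties with a Frobenius element with
several Weil numbers in the same CM field or in related CM fields, with absolutely irreducible odd
functions, if the quadratic forms of the slopes are separated (first part; second part: two fields
without any condition on their relation; third part: three Weil numbers with slopes `0`, `1 / 2`,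
`1` and a ternary equation).** -/
theorem result :
    (∀ (p : ℕ) [Fact p.Prime] (a : ℕ) (C : Type) [Fintype C] (K : C → Type)
      [∀ c, Field (K c)] [∀ c, NumberField (K c)] [∀ c, IsCMField (K c)]
      (J : C → Type) [∀ c, Fintype (J c)] (π : ∀ c, J c → K c), 0 < a →
      IsSystem p a π → SeparatedPairs p a π →
      MumfordTateHolds p a (fun i : Σ c, J c => K i.1) (fun i => π i.1 i.2)) ∧
    (∀ (p : ℕ) [Fact p.Prime] (a : ℕ) (F : Bool → Type)
      [∀ b, Field (F b)] [∀ b, NumberField (F b)] [∀ b, IsCMField (F b)]
      (J : Bool → Type) [∀ b, Fintype (J b)] (π : ∀ b, J b → F b), 0 < a →
      IsSystem p a π → Separated p a (π false) (π true) → Separated p a (π true) (π false) →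
      MumfordTateHolds p a (fun i : Σ b, J b => F i.1) (fun i => π i.1 i.2)) ∧
    (∀ (p : ℕ) [Fact p.Prime] (a : ℕ) (F : Bool → Type)
      [∀ b, Field (F b)] [∀ b, NumberField (F b)] [∀ b, IsCMField (F b)]
      (x y : F false) (z : F true) (f₁ f₂ f : ℕ) (k : ℤ), 0 < a →
      IsTriple p a x y z f₁ f₂ f k →
      MumfordTateHolds p a (fun i : Σ b : Bool, Fin (cond b 1 2) => F i.1)
        (fun i => twoOne x y z i.1 i.2)) := by
  refine ⟨?_, ?_, ?_⟩
  · intro p _ a C _ K _ _ _ J _ π ha hS hsep
    exact of_angle ha (fun i => hS.gen i.1 i.2) (fun i => hS.weil i.1 i.2)
      (angle_of_forms π ha hS.weil hS.abs hS.slopes hsep)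
  · intro p _ a F _ _ _ J _ π ha hS h1 h2
    exact of_angle ha (fun i => hS.gen i.1 i.2) (fun i => hS.weil i.1 i.2)
      (angle_of_two π ha hS.weil hS.abs hS.slopes h1 h2)
  · intro p _ a F _ _ _ x y z f₁ f₂ f k ha hT
    exact of_angle ha (triple_gen hT) (triple_weil hT) (angle_triple ha hT)

end Pool.Agent.Results.MP_33b3f9_ag.SeveralTypesRelatedFields
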