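import Pool.Agent.Q193.LT.Sums
import Pool.Agent.Q193.LT.Crit

/-!
# The Mumford-Tate conjecture for abelian varieties and trilinear forms with a block of three variables

Let `k` be an algebraic closure of a field finitely generated over `ℚ`, with an embedding in `ℂ`, and let
`ℓ` be a prime number. Let `M` be the category of motives over `k` in the sense of André, a semisimple
abelian category with Tate twists `N ↦ N(a)`. For a separated scheme `X` of finite type over `k` let
`D.H i X` be the object of `M` given by the graded object of the weight filtration of the cohomology with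
compact supports `H^i_c(X)`; for smooth projective `X` it is the motive `h^i(X)`.

`mt N` is the Mumford-Tate conjecture at `ℓ` for the motive `N` (for a model of `N` over a finitely
generated field): the Mumford-Tate group of the Hodge realization of `N` is generated by the image of an
open subgroup of the Galois group. `IsMT D Ab mt` collects the known facts that are used, for the abelian
varieties (`Ab`) over `k`:

* the conjecture is true for the motives of the point `Spec k`, and it is inherited by direct factors; by the theorem of Vasiu and Commelin it is true for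
  `N ⊕ N'` and for `N(a)`, if it is true for `N` and `N'` and these are direct factors of finite direct
  sums of Tate twists of motives of curves;
* `h^i` of a smooth projective curve is a sum of Tate motives (and the conjecture is true for it) or it
  is `h^1(A)` for the Jacobian `A`; for every abelian variety `A` the motive `h^1(A)` is a direct factor
  of `h^1(C)` for a curve `C`.

**Theorem.** The Mumford-Tate conjecture at `ℓ` is true for all abelian varieties over `k` if and only if
it is true for the motives `Gr^W H^i_c(T = 1)` of the smooth affine cubic hypersurfaces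
`T(x, y, z) = 1` of all trilinear forms `T` over `k` such that one of the three blocks of variables has at
most three variables (the other two blocks are arbitrary).
-/

set_option autoImplicit false

open CategoryTheory CategoryTheory.Limits AlgebraicGeometry Pool.Agent.Y116.UV Pool.Agent.Z125.UN
  Pool.Agent.Q193.LT

universe v u

namespace Pool.Agent.Results.MP_33b3f9_ag.ThreeVariables

variable {k : Type} [Field k] {M : Type u} [Category.{v} M] [Abelian M]

/-- `N` is a direct factor of a finite direct sum of Tate twists of motives `h^i(C)` of smooth projective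
curves `C`. -/
def Cv (D : CompactData k M) (N : M) : Prop := FactorOfSum D (OfProj D 1) N

/-- The known facts about the Mumford-Tate conjecture (`mt`) and abelian varieties (`Ab`), see above. -/
structure IsMT (D : CompactData k M) (Ab : Sch k → Prop) (mt : M → Prop) : Prop where
  zero : ∀ N, IsZero N → mt N
  point : ∀ i, mt (D.H i (aff k k))
  factor : ∀ {N N' : M} (i : N ⟶ N') (r : N' ⟶ N), i ≫ r = 𝟙 N → mt N' → mt N
  sum : ∀ {N N' : M}, Cv D N → Cv D N' → mt N → mt N' → mt (N ⊞ N')
  twist : ∀ (a : ℤ) {N : M}, Cv D N → mt N → mt ((D.tw a).obj N)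
  curve : ∀ Y : Sch k, SmoothProj Y → topologicalKrullDim Y.left ≤ (1 : ℕ) → ∀ i,
    mt (D.H i Y) ∨ ∃ A, Ab A ∧ Nonempty (D.H i Y ≅ D.H 1 A)
  jacobian : ∀ A, Ab A → ∃ Y : Sch k, SmoothProj Y ∧ topologicalKrullDim Y.left ≤ (1 : ℕ) ∧
    ∃ (i : D.H 1 A ⟶ D.H 1 Y) (r : D.H 1 Y ⟶ D.H 1 A), i ≫ r = 𝟙 _

/-- **The Mumford-Tate conjecture for abelian varieties and cubic hypersurfaces.** See the explanations
above. -/
theorem result [IsAlgClosed k] [CharZero k] {D : CompactData k M} (h : IsMotives D)
    {Ab : Sch k → Prop} {mt : M → Prop} (hm : IsMT D Ab mt) :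
    (∀ A, Ab A → mt (D.H 1 A)) ↔
      ∀ (a b c : ℕ) (T : Fin a → Fin b → Fin c → k), (a ≤ 3 ∨ b ≤ 3 ∨ c ≤ 3) →
        ∀ i, mt (D.H i (hypS T)) := by
  have hD := h.compact
  have hss : ∀ {X Y : M} (f : X ⟶ Y), Mono f → ∃ r : Y ⟶ X, f ≫ r = 𝟙 X := h.semisimple
  have hcv : IsTateSerre D (Cv D) := gen_serre hD hss
  -- the class of the objects whose factors and twists are as wanted
  let Q : M → Prop := fun N => Cv D N → mt N
  have hQ : IsTateSerre D (Facts D Q) := by
    refine facts_serre hD hss (fun X hX _ => hm.zero X hX) ?_ ?_
    · intro X Y e hX hY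
      exact hm.factor e.inv e.hom e.inv_hom_id (hX (hcv.toIsSerre.iso e.symm hY))
    · intro X Y hX hY hXY
      have h1 : Cv D X := hcv.toIsSerre.of_mono biprod.inl hXY
      have h2 : Cv D Y := hcv.toIsSerre.of_mono biprod.inr hXY
      exact hm.sum h1 h2 (hX h1) (hY h2)
  have hto : ∀ N, Cv D N → mt N → Facts D Q N := fun N hN hmt a N' i r hir _ =>
    hm.factor i r hir (hm.twist a hN hmt)
  have hfrom : ∀ N, Cv D N → Facts D Q N → mt N := fun N hN hf => by
    obtain ⟨e⟩ := hD.twZero
    exact hf 0 N (e.inv.app N) (e.hom.app N) (e.inv_hom_id_app N) hN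
  have hcurve : ∀ Y : Sch k, SmoothProj Y → topologicalKrullDim Y.left ≤ (1 : ℕ) →
      ∀ i, Cv D (D.H i Y) := fun Y hY hn i => FactorOfSum.self hD ⟨Y, i, hY, hn, rfl⟩
  have hpt : ∀ i, Cv D (D.H i (aff k k)) := point_factor hD h.generated hss 1 hcurve
  have hform : ∀ (a b c : ℕ) (T : Fin a → Fin b → Fin c → k), (a ≤ 3 ∨ b ≤ 3 ∨ c ≤ 3) →
      ∀ i, Cv D (D.H i (hypS T)) := (proj_iff hD h.generated hcv hpt 1).mp hcurve
  -- the point
  have hzero : ∀ i, Facts D Q (D.H i (aff k k)) := fun i => hto _ (hpt i) (hm.point i)
  constructor
  · intro hA a b c T hT i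
    refine hfrom _ (hform a b c T hT i) ?_
    refine (proj_iff hD h.generated hQ hzero 1).mp (fun Y hY hn i => ?_) a b c T hT i
    refine hto _ (hcurve Y hY hn i) ?_
    rcases hm.curve Y hY hn i with h1 | ⟨A, h1, ⟨e⟩⟩
    · exact h1
    · exact hm.factor e.hom e.inv e.hom_inv_id (hA A h1)
  · intro hT A hA
    obtain ⟨Y, hY, hn, i, r, hir⟩ := hm.jacobian A hA
    refine hm.factor i r hir (hfrom _ (hcurve Y hY hn 1) ?_)
    exact (proj_iff hD h.generated hQ hzero 1).mpr (fun a b c T hT' i =>
      hto _ (hform a b c T hT' i) (hT a b c T hT' i)) Y hY hn 1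

end Pool.Agent.Results.MP_33b3f9_ag.ThreeVariables
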